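import Pool.Agent.MP_3ee8cb_gt.D3NP.T2

/-! Morse theory with a continuous descent map instead of a gradient. -/

namespace Pool.Agent.MP_3ee8cb_gt.CZT

open Set Filter Topology Metric D3MO D3NP

variable {Y P W : Type} [TopologicalSpace Y] [MetricSpace P] [NormedAddCommGroup W]
  [NormedSpace ℝ W]

/-- A family of functions `b z` with lower functions `bs z` and descent maps `T z`. -/
structure TS (b bs : Y → P → ℝ) (T : Y → P → P) : Prop where
  cb : Continuous fun x : Y × P => b x.1 x.2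
  cs : Continuous fun x : Y × P => bs x.1 x.2
  cT : Continuous fun x : Y × P => T x.1 x.2
  le : ∀ z q, bs z q ≤ b z q
  tm : ∀ z q, b z (T z q) ≤ bs z q
  join : ∀ z q c, b z q < c → JoinedIn {y | b z y < c} q (T z q)
  cl : ∀ z q, bs z q < b z q → q ∈ closure {y | b z y < b z q}
  fix : ∀ z q, bs z q = b z q → T z q = q

/-- The quadratic form `H` separates `fs` from `f` in the chart `κ` at `p`. -/
structure Sw (f fs : P → ℝ) (κ : W → P) (p : P) (H : W →L[ℝ] W →L[ℝ] ℝ) : Prop where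
  ch : Ch κ p
  eq : fs p = f p
  sw : ∀ᶠ e in 𝓝[≠] (0 : W), fs (κ e) - f p < H e e ∧ H e e < f (κ e) - f p

variable {b bs : Y → P → ℝ} {T : Y → P → P} {z : Y} {p : P} {κ : W → P} {H : W →L[ℝ] W →L[ℝ] ℝ}

theorem TS.reg [LocallyPathConnectedSpace P] (h : TS b bs T) (hz : bs z p < b z p) :
    ∀ᶠ y : (Y × Y) × P in 𝓝 ((z, z), p), ∀ η : ℝ,
      Lw (fun q => min (b y.1.1 q + η) (b y.1.2 q)) y.2 := by
  obtain ⟨m, m1, m2⟩ := exists_between ((h.tm z p).trans_lt hz)
  obtain ⟨U, hU, Q, hQ, hUQ⟩ := mem_nhds_prod_iff.1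
    (h.cb.continuousAt.eventually_lt (continuousAt_const (y := m)) (x₀ := (z, T z p)) m1)
  have hW := pathComponentIn_mem_nhds hQ
  obtain ⟨U', hU', R, hR, hUR⟩ := mem_nhds_prod_iff.1
    (((h.cT.continuousAt (x := (z, p))).eventually hW).and
      (((continuousAt_const (y := m)).eventually_lt h.cb.continuousAt (x₀ := (z, p)) m2).and
        (h.cs.continuousAt.eventually_lt h.cb.continuousAt (x₀ := (z, p)) hz)))
  have t1 : ∀ᶠ y : (Y × Y) × P in 𝓝 ((z, z), p), y.1.1 ∈ U ∩ U' :=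
    (by fun_prop : ContinuousAt (fun y : (Y × Y) × P => y.1.1) _).eventually (inter_mem hU hU')
  have t2 : ∀ᶠ y : (Y × Y) × P in 𝓝 ((z, z), p), y.1.2 ∈ U ∩ U' :=
    (by fun_prop : ContinuousAt (fun y : (Y × Y) × P => y.1.2) _).eventually (inter_mem hU hU')
  have t3 : ∀ᶠ y : (Y × Y) × P in 𝓝 ((z, z), p), R ∈ 𝓝 y.2 :=
    continuousAt_snd.eventually (eventually_mem_nhds_iff.2 hR)
  filter_upwards [t1, t2, t3] with ⟨⟨z1, z2⟩, q⟩ h1 h2 h3 η
  have a1 := hUR (mk_mem_prod h1.2 (mem_of_mem_nhds h3))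
  have a2 := hUR (mk_mem_prod h2.2 (mem_of_mem_nhds h3))
  set L := {w | min (b z1 w + η) (b z2 w) < min (b z1 q + η) (b z2 q)} with hL
  have sQ : Q ⊆ L := fun w hw => min_lt_min
    (by linarith [show b z1 w < m from hUQ (mk_mem_prod h1.1 hw), show m < b z1 q from a1.2.1])
    ((show b z2 w < m from hUQ (mk_mem_prod h2.1 hw)).trans a2.2.1)
  have key : ∀ w ∈ R ∩ L, JoinedIn L (T z p) w := by
    intro w hw
    rcases min_lt_iff.1 (show min (b z1 w + η) (b z2 w) < min (b z1 q + η) (b z2 q) from hw.2)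
      with d | d
    · exact ((show JoinedIn Q _ _ from (hUR (mk_mem_prod h1.2 hw.1)).1).mono sQ).trans
        ((h.join z1 w _ (lt_sub_iff_add_lt.2 d)).mono (V := L) fun y (hy : b z1 y < _) =>
          (min_le_left _ _).trans_lt (lt_sub_iff_add_lt.1 hy)).symm
    · exact ((show JoinedIn Q _ _ from (hUR (mk_mem_prod h2.2 hw.1)).1).mono sQ).trans
        ((h.join z2 w _ d).mono (V := L) fun y (hy : b z2 y < _) =>
          (min_le_right _ _).trans_lt hy).symm
  refine ⟨?_, R, h3, fun w hw w' hw' => (key w hw).symm.trans (key w' hw')⟩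
  rcases le_total (b z1 q + η) (b z2 q) with d | d
  · refine closure_mono (fun w (hw : b z1 w < b z1 q) => ?_) (h.cl z1 q a1.2.2)
    exact (min_le_left _ _).trans_lt (lt_of_lt_of_eq (by linarith) (min_eq_left d).symm)
  · refine closure_mono (fun w (hw : b z2 w < b z2 q) => ?_) (h.cl z2 q a2.2.2)
    exact (min_le_right _ _).trans_lt (lt_of_lt_of_eq hw (min_eq_right d).symm)

theorem TS.lw [LocallyPathConnectedSpace P] (h : TS b bs T) (hz : bs z p < b z p) :
    Lw (b z) p := by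
  simpa using (h.reg hz).self_of_nhds 0

theorem Sw.mi {f fs : P → ℝ} (s : Sw f fs κ p H) (hH : ∀ e, 0 ≤ H e e) : Mi f p := by
  have := s.ch.onto _ (eventually_nhdsWithin_iff.1 s.sw)
  unfold Mi
  rw [eventually_nhdsWithin_iff]
  filter_upwards [this] with q hq qp
  obtain ⟨e, he, rfl⟩ := hq
  have := he fun (x : e = 0) => qp (by rw [x]; exact s.ch.zero)
  linarith [this.2, hH e]

theorem Sw.ball (h : TS b bs T) (s : Sw (b z) (bs z) κ p H) : ∃ r > 0,
    (∀ e ∈ ball (0 : W) r, b z (κ e) < b z p → H e e < 0) ∧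
    (∀ e ∈ ball (0 : W) r, H e e < 0 → bs z (κ e) < b z p) ∧
    ∀ e ∈ ball (0 : W) r, ∀ e' ∈ ball (0 : W) r, H e e < 0 → H e' e' < 0 → H e e' + H e' e ≤ 0 →
      JoinedIn {q | b z q < b z p} (T z (κ e)) (T z (κ e')) := by
  obtain ⟨r, r0, hr⟩ := Metric.eventually_nhds_iff_ball.1
    ((eventually_nhdsWithin_iff.1 s.sw).and s.ch.cont)
  have k2 : ∀ e ∈ Metric.ball (0 : W) r, H e e < 0 → bs z (κ e) < b z p := fun e he d => by
    have := (hr e he).1 fun (x : e = 0) => by simp [x] at d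
    linarith [this.1]
  refine ⟨r, r0, fun e he d => ?_, k2, fun e he e' he' d d' x => ?_⟩
  · have := (hr e he).1 fun (x : e = 0) => by
      rw [x, s.ch.zero] at d
      exact lt_irrefl _ d
    linarith [this.2]
  · refine jn (φ := fun e => T z (κ e)) (JoinedIn.of_segment_subset Subset.rfl) fun w hw => ?_
    have hw' := (convex_ball (0 : W) r).segment_subset he he' hw
    refine ⟨ContinuousAt.comp (g := T z) (h.cT.comp (Continuous.prodMk_right z)).continuousAt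
      (hr w hw').2, (h.tm z _).trans_lt (k2 w hw' ?_)⟩
    obtain ⟨u, v, hu, hv, huv, rfl⟩ := hw
    simp only [map_add, map_smul, ContinuousLinearMap.add_apply, ContinuousLinearMap.smul_apply,
      smul_eq_mul]
    have e1 := mul_nonpos_of_nonneg_of_nonpos (mul_nonneg hu hv) x
    rcases hu.eq_or_lt with rfl | hu
    · rw [zero_add] at huv
      rw [huv]
      linarith
    · nlinarith [mul_neg_of_pos_of_neg (mul_pos hu hu) d,
        mul_nonpos_of_nonneg_of_nonpos (mul_nonneg hv hv) d'.le]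

theorem sm {v : W} (hv : H v v < 0) {ρ : ℝ} (h : ρ ≠ 0) : H (ρ • v) (ρ • v) < 0 := by
  simp only [map_smul, ContinuousLinearMap.smul_apply, smul_eq_mul]
  nlinarith [mul_self_pos.2 h]

theorem ev_ball (v : W) {r : ℝ} (r0 : 0 < r) :
    ∀ᶠ ρ in 𝓝[>] (0 : ℝ), ρ • v ∈ ball (0 : W) r ∧ -ρ • v ∈ ball (0 : W) r := by
  have c : ContinuousAt (fun ρ : ℝ => ρ • v) 0 := by fun_prop
  have c' : ContinuousAt (fun ρ : ℝ => -ρ • v) 0 := by fun_prop
  exact nhdsWithin_le_nhds ((c.eventually (isOpen_ball.mem_nhds (by simpa using r0))).and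
    (c'.eventually (isOpen_ball.mem_nhds (by simpa using r0))))

theorem Sw.tend (h : TS b bs T) (s : Sw (b z) (bs z) κ p H) (v : W) :
    Tendsto (fun ρ : ℝ => T z (κ (ρ • v))) (𝓝[>] 0) (𝓝 p) := by
  have c : Tendsto (fun ρ : ℝ => ρ • v) (𝓝[>] 0) (𝓝 0) := by
    have : Continuous fun l : ℝ => l • v := by fun_prop
    simpa using (this.tendsto 0).mono_left nhdsWithin_le_nhds
  have c2 : Tendsto κ (𝓝 0) (𝓝 p) := s.ch.zero ▸ s.ch.cont.self_of_nhds.tendsto
  have c3 : Tendsto (T z) (𝓝 p) (𝓝 p) := by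
    have := (h.cT.comp (Continuous.prodMk_right z)).tendsto p
    rwa [Function.comp_apply, h.fix z p s.eq] at this
  exact c3.comp (c2.comp c)

/-- The two sides of a point with a negative direction. -/
theorem Sw.two (h : TS b bs T) (s : Sw (b z) (bs z) κ p H) {v : W} (hv : H v v < 0) :
    p ∈ closure {q | b z q < b z p} ∧ ∃ U ∈ 𝓝 p, ∀ᶠ ρ in 𝓝[>] (0 : ℝ),
      bs z (κ (ρ • v)) < b z p ∧ bs z (κ (-ρ • v)) < b z p ∧ ∀ q ∈ U ∩ {q | b z q < b z p},
        JoinedIn {q | b z q < b z p} q (T z (κ (ρ • v))) ∨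
          JoinedIn {q | b z q < b z p} q (T z (κ (-ρ • v))) := by
  obtain ⟨r, r0, k1, k2, k3⟩ := s.ball h
  refine ⟨mem_closure_of_tendsto (s.tend h v) ?_, _, s.ch.onto _ (ball_mem_nhds 0 r0), ?_⟩
  · filter_upwards [ev_ball v r0, self_mem_nhdsWithin] with ρ h1 h2
    exact (h.tm z _).trans_lt (k2 _ h1.1 (sm hv (ne_of_gt h2)))
  · filter_upwards [ev_ball v r0, self_mem_nhdsWithin] with ρ h1 h2
    have n1 := sm hv (ne_of_gt h2)
    have n2 := sm hv (neg_ne_zero.2 (ne_of_gt h2))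
    refine ⟨k2 _ h1.1 n1, k2 _ h1.2 n2, ?_⟩
    rintro _ ⟨⟨e, he, rfl⟩, hq⟩
    have j := h.join z _ _ hq
    rcases le_total (H e (ρ • v) + H (ρ • v) e) 0 with d | d
    · exact Or.inl (j.trans (k3 e he _ h1.1 (k1 e he hq) n1 d))
    · refine Or.inr (j.trans (k3 e he _ h1.2 (k1 e he hq) n2 ?_))
      rw [neg_smul, map_neg, map_neg, ContinuousLinearMap.neg_apply]
      linarith

theorem Sw.l2 (h : TS b bs T) (s : Sw (b z) (bs z) κ p H) {v : W} (hv : H v v < 0) :
    L2 (b z) p := by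
  obtain ⟨c, U, hU, k⟩ := s.two h hv
  obtain ⟨ρ, -, -, k⟩ := k.exists
  exact ⟨c, U, hU, _, _, k⟩

theorem Sw.lw_iff (h : TS b bs T) (s : Sw (b z) (bs z) κ p H) {v : W} (hv : H v v < 0) :
    (Lw (b z) p → ∀ᶠ ρ in 𝓝[>] (0 : ℝ),
      JoinedIn {q | b z q < b z p} (T z (κ (ρ • v))) (T z (κ (-ρ • v)))) ∧
    ((∃ᶠ ρ in 𝓝[>] (0 : ℝ),
      JoinedIn {q | b z q < b z p} (T z (κ (ρ • v))) (T z (κ (-ρ • v)))) → Lw (b z) p) := by
  obtain ⟨c, U, hU, k⟩ := s.two h hv
  constructor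
  · rintro ⟨-, U', hU', l⟩
    filter_upwards [k, (s.tend h v).eventually hU', (s.tend h (-v)).eventually hU'] with ρ a x y
    rw [smul_neg, ← neg_smul] at y
    exact l _ ⟨x, (h.tm z _).trans_lt a.1⟩ _ ⟨y, (h.tm z _).trans_lt a.2.1⟩
  · intro j
    obtain ⟨ρ, j, -, -, k⟩ := (j.and_eventually k).exists
    exact ⟨c, U, hU, fun q hq q' hq' =>
      ((k q hq).elim (·.trans j) id).trans ((k q' hq').elim (·.trans j) id).symm⟩

theorem Sw.lw (h : TS b bs T) (s : Sw (b z) (bs z) κ p H) (hW : 1 < Module.finrank ℝ W)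
    (hH : ∀ e, e ≠ 0 → H e e < 0) : Lw (b z) p := by
  obtain ⟨r, r0, -, -, k3⟩ := s.ball h
  haveI : Module.Finite ℝ W := Module.finite_of_finrank_pos (by omega)
  haveI : Nontrivial W := Module.nontrivial_of_finrank_pos (R := ℝ) (by omega)
  obtain ⟨v, hv⟩ := exists_ne (0 : W)
  obtain ⟨w, hw, hvw⟩ : ∃ w, w ≠ 0 ∧ H v w + H w v = 0 := by
    have := LinearMap.finrank_range_add_finrank_ker ((H v + H.flip v : W →L[ℝ] ℝ) : W →ₗ[ℝ] ℝ)
    have h2 := (LinearMap.range ((H v + H.flip v : W →L[ℝ] ℝ) : W →ₗ[ℝ] ℝ)).finrank_le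
    rw [Module.finrank_self] at h2
    obtain ⟨w, h3, h4⟩ := (Submodule.ne_bot_iff _).1 (show LinearMap.ker
      ((H v + H.flip v : W →L[ℝ] ℝ) : W →ₗ[ℝ] ℝ) ≠ ⊥ from fun e => by
        rw [e, finrank_bot] at this
        omega)
    exact ⟨w, h4, by simpa using h3⟩
  refine (s.lw_iff h (hH v hv)).2 (Eventually.frequently ?_)
  filter_upwards [ev_ball v r0, ev_ball w r0, self_mem_nhdsWithin] with ρ h1 h2 h3
  have n : ρ ≠ 0 := ne_of_gt h3
  refine (k3 _ h1.1 _ h2.1 (sm (hH v hv) n) (sm (hH w hw) n) (le_of_eq ?_)).trans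
    (k3 _ h2.1 _ h1.2 (sm (hH w hw) n) (sm (hH v hv) (neg_ne_zero.2 n)) (le_of_eq ?_))
  · simp only [map_smul, ContinuousLinearMap.smul_apply, smul_eq_mul]
    linear_combination ρ * ρ * hvw
  · simp only [map_smul, ContinuousLinearMap.smul_apply, smul_eq_mul]
    linear_combination (-ρ * ρ) * hvw

/-- One-sidedness persists along the curve `c`. -/
theorem down (h : TS b bs T) {c : ℝ → Y} (hc : Continuous c) {s t : ℝ} (hst : s ≤ t)
    (val : ∀ τ, b (c τ) p = τ) (mono : ∀ q, Antitone fun τ => b (c τ) q - τ)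
    (mono' : ∀ q, Antitone fun τ => bs (c τ) q - τ) {H' : W →L[ℝ] W →L[ℝ] ℝ}
    (s1 : Sw (b (c s)) (bs (c s)) κ p H) (s2 : Sw (b (c t)) (bs (c t)) κ p H')
    (hH : ∀ v, H v v < 0 → H' v v < 0) (l : Lw (b (c s)) p) : Lw (b (c t)) p := by
  obtain ⟨v, hv⟩ : ∃ v, H v v < 0 := by
    by_contra hn
    exact (s1.mi fun e => not_lt.1 fun d => hn ⟨e, d⟩).not_cl l.1
  obtain ⟨-, U, -, k⟩ := s1.two h hv
  have sub : ∀ τ, τ ≤ t → ∀ q, b (c τ) q < τ → b (c t) q < b (c t) p := fun τ hτ q hq => by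
    have := mono q hτ
    rw [val]
    dsimp only at this
    linarith
  have path : ∀ q, bs (c s) q < b (c s) p →
      JoinedIn {y | b (c t) y < b (c t) p} (T (c s) q) (T (c t) q) := fun q hq => by
    refine jn (φ := fun τ => T (c τ) q) (JoinedIn.of_segment_subset Subset.rfl) fun τ hτ => ?_
    rw [segment_eq_Icc hst] at hτ
    refine ⟨(h.cT.comp (hc.prodMk continuous_const)).continuousAt,
      sub τ hτ.2 _ ((h.tm _ q).trans_lt ?_)⟩
    have := mono' q hτ.1
    rw [val] at hq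
    dsimp only at this
    linarith
  refine (s2.lw_iff h (hH v hv)).2 (Eventually.frequently ?_)
  filter_upwards [k, (s1.lw_iff h hv).1 l] with ρ a j
  exact ((path _ a.1).symm.trans (j.mono fun q hq => sub s hst q
    (lt_of_lt_of_eq hq (val s)))).trans (path _ a.2.1)

end Pool.Agent.MP_3ee8cb_gt.CZT
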