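import Pool.Agent.MP_3ee8cb_gt.CZT.Fin

/-! A point with a negative direction becomes one-sided, from the lower functions. -/

namespace Pool.Agent.MP_3ee8cb_gt.CZT

open Set Filter Topology Metric D3MO D3NP

variable {Y P W : Type} [TopologicalSpace Y] [MetricSpace P] [NormedAddCommGroup W]
  [NormedSpace ℝ W] {b bs : Y → P → ℝ} {T : Y → P → P} {p : P} {κ : W → P}
  {H : W →L[ℝ] W →L[ℝ] ℝ}

theorem fin' (h : TS b bs T) {c : ℝ → Y} {s : ℝ} (val : ∀ τ, b (c τ) p = τ)
    (mono' : ∀ q, Antitone fun τ => bs (c τ) q - τ) (s1 : Sw (b (c s)) (bs (c s)) κ p H) {v : W}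
    (hv : H v v < 0) (pc : IsPathConnected ({p}ᶜ : Set P))
    (un : ∀ q, q ≠ p → ∃ t, bs (c t) q < t) :
    ∃ t0, ∀ t, t0 ≤ t → ∀ H' : W →L[ℝ] W →L[ℝ] ℝ, Sw (b (c t)) (bs (c t)) κ p H' → H' v v < 0 →
      Lw (b (c t)) p := by
  obtain ⟨r1, r1', -, k2, -⟩ := s1.ball h
  obtain ⟨r2, r2', k3⟩ := Metric.eventually_nhds_iff_ball.1 s1.ch.cont
  have r0 := lt_min r1' r2'
  have i1 := ball_subset_ball (x := (0 : W)) (min_le_left r1 r2)
  have i2 := ball_subset_ball (x := (0 : W)) (min_le_right r1 r2)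
  obtain ⟨ρ0, a0, (p0 : 0 < ρ0)⟩ := ((ev_ball v r0).and self_mem_nhdsWithin).exists
  have ne : ∀ e ∈ ball (0 : W) r1, H e e < 0 → κ e ∈ ({p}ᶜ : Set P) := fun e he d x =>
    absurd (k2 e he d) (by rw [show κ e = p from x, s1.eq]; simp)
  obtain ⟨t1, -, j⟩ := path_time (g := fun t q => bs (c t) q - t) (T := univ)
    (fun t => (h.cs.comp (Continuous.prodMk_right (c t))).sub continuous_const) mono'
    ((pc.joinedIn _ (ne _ (i1 a0.1) (sm hv p0.ne')) _
      (ne _ (i1 a0.2) (sm hv (neg_ne_zero.2 p0.ne')))).mono fun q hq =>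
        (un q hq).imp fun t ht => ⟨mem_univ _, sub_neg.2 ht⟩)
  refine ⟨max s t1, fun t ht H' s2 hv' => ?_⟩
  have sub : ∀ τ, τ ≤ t → ∀ q, bs (c τ) q < τ → bs (c t) q < t := fun τ hτ q hq => by
    have := mono' q hτ
    dsimp only at this
    linarith
  have ray : ∀ x y : ℝ, 0 < x * y → x • v ∈ ball (0 : W) (min r1 r2) →
      y • v ∈ ball (0 : W) (min r1 r2) → JoinedIn {q | bs (c t) q < t} (κ (x • v)) (κ (y • v)) := by
    intro x y hxy hx hy
    refine jn (JoinedIn.of_segment_subset Subset.rfl) fun w hw => ?_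
    have hw' := (convex_ball (0 : W) _).segment_subset hx hy hw
    refine ⟨k3 w (i2 hw'), sub s ((le_max_left _ _).trans ht) _
      (lt_of_lt_of_eq (k2 w (i1 hw') ?_) (val s))⟩
    obtain ⟨α, β, hα, hβ, hαβ, rfl⟩ := hw
    rw [smul_smul, smul_smul, ← add_smul]
    refine sm hv fun e => ?_
    have e1 : α * (x * x) + β * (x * y) = 0 := by linear_combination x * e
    have e2 : α * (x * y) + β * (y * y) = 0 := by linear_combination y * e
    nlinarith [mul_nonneg hα (mul_self_nonneg x), mul_nonneg hβ (mul_self_nonneg y)]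
  refine (s2.lw_iff h hv').2 (Eventually.frequently ?_)
  filter_upwards [ev_ball v r0, self_mem_nhdsWithin] with ρ a (p1 : 0 < ρ)
  refine (((((ray _ _ (mul_pos p1 p0) a.1 a0.1).trans (j.mono fun q hq =>
    sub t1 ((le_max_right _ _).trans ht) q (sub_neg.1 hq))).trans
      (ray _ _ (by nlinarith [mul_pos p1 p0]) a0.2 a.2)).map_continuousOn (f := T (c t))
        (h.cT.comp (Continuous.prodMk_right (c t))).continuousOn).mono ?_)
  rintro _ ⟨q, hq, rfl⟩
  exact (h.tm _ q).trans_lt (lt_of_lt_of_eq hq (val t).symm)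

end Pool.Agent.MP_3ee8cb_gt.CZT
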