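import Pool.Agent.MP_3ee8cb_gt.CZT.Top

/-! A point with a negative direction becomes one-sided; the only minimum is the global one. -/

namespace Pool.Agent.MP_3ee8cb_gt.CZT

open Set Filter Topology Metric D3MO D3NP

variable {Y P W : Type} [TopologicalSpace Y] [MetricSpace P] [NormedAddCommGroup W]
  [NormedSpace ℝ W] {b bs : Y → P → ℝ} {T : Y → P → P} {p : P} {κ : W → P}
  {H : W →L[ℝ] W →L[ℝ] ℝ}

theorem fin (h : TS b bs T) {c : ℝ → Y} (hc : Continuous c) {s : ℝ}
    (val : ∀ τ, b (c τ) p = τ) (mono : ∀ q, Antitone fun τ => b (c τ) q - τ)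
    (mono' : ∀ q, Antitone fun τ => bs (c τ) q - τ) (s1 : Sw (b (c s)) (bs (c s)) κ p H) {v : W}
    (hv : H v v < 0) (pc : IsPathConnected ({p}ᶜ : Set P)) (un : ∀ q, q ≠ p → ∃ t, b (c t) q < t) :
    ∃ t0, ∀ t, t0 ≤ t → ∀ H' : W →L[ℝ] W →L[ℝ] ℝ, Sw (b (c t)) (bs (c t)) κ p H' → H' v v < 0 →
      Lw (b (c t)) p := by
  obtain ⟨r, r0, -, k2, k3⟩ := s1.ball h
  obtain ⟨ρ0, a0, (p0 : 0 < ρ0)⟩ := ((ev_ball v r0).and self_mem_nhdsWithin).exists
  have n1 := sm hv p0.ne'
  have n2 := sm hv (neg_ne_zero.2 p0.ne')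
  have ne : ∀ e ∈ ball (0 : W) r, H e e < 0 → T (c s) (κ e) ∈ ({p}ᶜ : Set P) := fun e he d x =>
    absurd ((h.tm _ _).trans_lt (k2 e he d)) (by rw [show T (c s) (κ e) = p from x]; simp)
  obtain ⟨t1, -, j⟩ := path_time (g := fun t q => b (c t) q - t) (T := univ)
    (fun t => (h.cb.comp (Continuous.prodMk_right (c t))).sub continuous_const) mono
    ((pc.joinedIn _ (ne _ a0.1 n1) _ (ne _ a0.2 n2)).mono fun q hq =>
      (un q hq).imp fun t ht => ⟨mem_univ _, sub_neg.2 ht⟩)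
  refine ⟨max s t1, fun t ht H' s2 hv' => ?_⟩
  have hst := (le_max_left _ _).trans ht
  have sub : ∀ τ, τ ≤ t → ∀ q, b (c τ) q < τ → b (c t) q < b (c t) p := fun τ hτ q hq => by
    have := mono q hτ
    rw [val]
    dsimp only at this
    linarith
  have path : ∀ q, bs (c s) q < b (c s) p →
      JoinedIn {y | b (c t) y < b (c t) p} (T (c s) q) (T (c t) q) := fun q hq => by
    refine jn (φ := fun τ => T (c τ) q) (JoinedIn.of_segment_subset Subset.rfl) fun τ hτ => ?_
    rw [segment_eq_Icc hst] at hτ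
    refine ⟨(h.cT.comp (hc.prodMk continuous_const)).continuousAt,
      sub τ hτ.2 _ ((h.tm _ q).trans_lt ?_)⟩
    have := mono' q hτ.1
    rw [val] at hq
    dsimp only at this
    linarith
  have up : {y | b (c s) y < b (c s) p} ⊆ {y | b (c t) y < b (c t) p} := fun q hq =>
    sub s hst q (lt_of_lt_of_eq hq (val s))
  refine (s2.lw_iff h hv').2 (Eventually.frequently ?_)
  filter_upwards [ev_ball v r0, self_mem_nhdsWithin] with ρ a (p1 : 0 < ρ)
  have m1 := sm hv p1.ne'
  have m2 := sm hv (neg_ne_zero.2 p1.ne')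
  have pr := mul_neg_of_pos_of_neg (mul_pos p0 p1) hv
  have j1 := (k3 _ a.1 _ a0.1 m1 n1 (by
    simp only [map_smul, ContinuousLinearMap.smul_apply, smul_eq_mul]
    nlinarith)).mono up
  have j2 := (k3 _ a0.2 _ a.2 n2 m2 (by
    simp only [map_smul, ContinuousLinearMap.smul_apply, smul_eq_mul]
    nlinarith)).mono up
  exact (((path _ (k2 _ a.1 m1)).symm.trans j1).trans (j.mono fun q hq =>
    sub t1 ((le_max_right _ _).trans ht) q (sub_neg.1 hq))).trans
      (j2.trans (path _ (k2 _ a.2 m2)))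

/-- Without merging saddles a strict local minimum is the global minimum. -/
theorem glob_min [CompactSpace P] [LocallyPathConnectedSpace P] [PathConnectedSpace P]
    {f : P → ℝ} {Cr : Finset P} (h : Tm f Cr) (hs : ∀ q ∈ Cr, Mi f q ∨ Lw f q) (hp : Mi f p)
    (q : P) : f p ≤ f q := by
  classical
  have mem : ∀ y, y ∉ closure {w | f w < f y} → y ∈ Cr.filter (Mi f) := fun y hy => by
    rcases h.loc y with a | ⟨a, d | d⟩
    · exact absurd a.1 hy
    · exact Finset.mem_filter.2 ⟨a, d⟩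
    · exact absurd d.1 hy
  have t := h.tot
  rw [sum_st, Finset.filter_eq_empty_iff.2 fun y hy (d : ¬Mi f y ∧ ¬Lw f y) =>
    (hs y hy).elim d.1 d.2] at t
  obtain ⟨m, -, hm⟩ := isCompact_univ.exists_isMinOn ⟨q, mem_univ q⟩ h.cont.continuousOn
  have e : {w | f w < f m} = ∅ :=
    eq_empty_of_forall_notMem fun w hw => absurd (show f m ≤ f w from hm (mem_univ w)) (not_le.2 hw)
  have := Finset.card_le_one.1 (show (Cr.filter (Mi f)).card ≤ 1 by
    simp only [Finset.card_empty] at t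
    omega) p (mem p hp.not_cl) m (mem m (by rw [e]; simp))
  exact this ▸ hm (mem_univ q)

end Pool.Agent.MP_3ee8cb_gt.CZT
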